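import Mathlib

/-!
A chain of gadgets: a 2-degenerate graph with lists of size 3 and a request with domain of
size `k` of which every list colouring satisfies at most one member.

Vertices are `0, ..., 5k`. The vertex `5j` is joined by the gadget number `j` (with the new
vertices `5j+1, ..., 5j+5`) to the vertex `5j+5`.
-/

namespace Pool.Agent.H778R3.Flex

open Finset

/-- adjacency from a vertex to a later vertex -/
def E (u v : ℕ) : Prop :=
  v = u + 1 ∨ (v = u + 2 ∧ (v % 5 = 0 ∨ v % 5 = 2 ∨ v % 5 = 3)) ∨ (v = u + 4 ∧ v % 5 = 4)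

theorem E_lt {u v : ℕ} (h : E u v) : u < v := by
  unfold E at h; omega

/-- the graph on `{0, ..., 5k}` -/
def G (k : ℕ) : SimpleGraph (Fin (5 * k + 1)) where
  Adj u v := E u v ∨ E v u
  symm := ⟨fun _ _ h => h.symm⟩
  loopless := ⟨fun _ h => by
    rcases h with h | h <;> exact absurd (E_lt h) (lt_irrefl _)⟩

/-- the lists -/
def L (v : ℕ) : Finset ℕ :=
  if v % 5 = 1 then {0, 3, 4} else if v % 5 = 2 then {0, 3, 4} else
    if v % 5 = 3 then {0, 2, 3} else {0, 2, 4}

theorem card_L (v : ℕ) : (L v).card = 3 := by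
  unfold L
  split_ifs <;> rfl

theorem degenerate (k : ℕ) (S : Finset (Fin (5 * k + 1))) (hS : S.Nonempty) :
    ∃ v ∈ S, ({u : Fin (5 * k + 1) | u ∈ S ∧ (G k).Adj v u}).ncard ≤ 2 := by
  classical
  refine ⟨S.max' hS, S.max'_mem hS, ?_⟩
  set v := S.max' hS with hv
  have hsub : (fun u : Fin (5 * k + 1) => (u : ℕ)) '' {u | u ∈ S ∧ (G k).Adj v u} ⊆
      {(v : ℕ) - 1, if (v : ℕ) % 5 = 4 then (v : ℕ) - 4 else (v : ℕ) - 2} := by
    rintro x ⟨u, ⟨huS, hadj⟩, rfl⟩
    have hle : u ≤ v := S.le_max' u huS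
    have hle' : (u : ℕ) ≤ (v : ℕ) := hle
    have hE : E u v := by
      rcases hadj with h | h
      · exact absurd (E_lt h) (by omega)
      · exact h
    unfold E at hE
    simp only [Set.mem_insert_iff, Set.mem_singleton_iff]
    split_ifs with h4 <;> omega
  have hinj : Function.Injective (fun u : Fin (5 * k + 1) => (u : ℕ)) := Fin.val_injective
  rw [← Set.ncard_image_of_injective _ hinj]
  exact (Set.ncard_le_ncard hsub (Set.toFinite _)).trans (Set.ncard_insert_le _ _ |>.trans (by simp))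

section colouring

variable {k : ℕ} (φ : Fin (5 * k + 1) → ℕ) (hL : ∀ v : Fin (5 * k + 1), φ v ∈ L v)
  (hφ : ∀ u v, (G k).Adj u v → φ u ≠ φ v)

include hL hφ

/-- the gadget -/
theorem gadget (j : ℕ) (hj : j < k) :
    (φ ⟨5 * j, by omega⟩ = 4 → φ ⟨5 * j + 4, by omega⟩ = 0 ∧ φ ⟨5 * j + 5, by omega⟩ = 4) ∧
    (φ ⟨5 * j + 4, by omega⟩ = 2 → φ ⟨5 * j + 5, by omega⟩ = 4) := by
  have l : ∀ (a : ℕ) (ha : a < 5 * k + 1), φ ⟨a, ha⟩ ∈ L a := fun a ha => hL ⟨a, ha⟩
  have e : ∀ (a b : ℕ) (ha : a < 5 * k + 1) (hb : b < 5 * k + 1), E a b →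
      φ ⟨a, ha⟩ ≠ φ ⟨b, hb⟩ := fun a b ha hb h => hφ _ _ (Or.inl h)
  have l0 := l (5 * j) (by omega)
  have l1 := l (5 * j + 1) (by omega)
  have l2 := l (5 * j + 2) (by omega)
  have l3 := l (5 * j + 3) (by omega)
  have l4 := l (5 * j + 4) (by omega)
  have l5 := l (5 * j + 5) (by omega)
  have e01 := e (5 * j) (5 * j + 1) (by omega) (by omega) (by unfold E; omega)
  have e02 := e (5 * j) (5 * j + 2) (by omega) (by omega) (by unfold E; omega)
  have e12 := e (5 * j + 1) (5 * j + 2) (by omega) (by omega) (by unfold E; omega)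
  have e13 := e (5 * j + 1) (5 * j + 3) (by omega) (by omega) (by unfold E; omega)
  have e23 := e (5 * j + 2) (5 * j + 3) (by omega) (by omega) (by unfold E; omega)
  have e04 := e (5 * j) (5 * j + 4) (by omega) (by omega) (by unfold E; omega)
  have e34 := e (5 * j + 3) (5 * j + 4) (by omega) (by omega) (by unfold E; omega)
  have e35 := e (5 * j + 3) (5 * j + 5) (by omega) (by omega) (by unfold E; omega)
  have e45 := e (5 * j + 4) (5 * j + 5) (by omega) (by omega) (by unfold E; omega)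
  clear l e
  generalize φ ⟨5 * j, _⟩ = x0 at *
  generalize φ ⟨5 * j + 1, _⟩ = x1 at *
  generalize φ ⟨5 * j + 2, _⟩ = x2 at *
  generalize φ ⟨5 * j + 3, _⟩ = x3 at *
  generalize φ ⟨5 * j + 4, _⟩ = x4 at *
  generalize φ ⟨5 * j + 5, _⟩ = x5 at *
  have m0 : (5 * j) % 5 = 0 := by omega
  have m1 : (5 * j + 1) % 5 = 1 := by omega
  have m2 : (5 * j + 2) % 5 = 2 := by omega
  have m3 : (5 * j + 3) % 5 = 3 := by omega
  have m4 : (5 * j + 4) % 5 = 4 := by omega
  have m5 : (5 * j + 5) % 5 = 0 := by omega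
  unfold L at l0 l1 l2 l3 l4 l5
  rw [m0] at l0
  rw [m1] at l1
  rw [m2] at l2
  rw [m3] at l3
  rw [m4] at l4
  rw [m5] at l5
  simp at l0 l1 l2 l3 l4 l5
  omega

/-- once the event happens it propagates -/
theorem propagate (i : ℕ) (hi : i ≤ k) (h : φ ⟨5 * i, by omega⟩ = 4) :
    ∀ j, i ≤ j → (hj : j ≤ k) → φ ⟨5 * j, by omega⟩ = 4 := by
  intro j hij
  induction j, hij using Nat.le_induction with
  | base => intro _; exact h
  | succ j hij ih =>
    intro hj
    have h1 := (gadget φ hL hφ j (by omega)).1 (ih (by omega))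
    exact h1.2

/-- at most one member of the request is satisfied -/
theorem at_most_one (i j : ℕ) (hij : i < j) (hj : j < k) (h : φ ⟨5 * i + 4, by omega⟩ = 2) :
    φ ⟨5 * j + 4, by omega⟩ ≠ 2 := by
  have h1 := (gadget φ hL hφ i (by omega)).2 h
  have h2 := propagate φ hL hφ (i + 1) (by omega) h1 j (by omega) (by omega)
  have h3 := (gadget φ hL hφ j hj).1 h2
  rw [h3.1]
  norm_num

/-- the set of satisfied members of the request has at most one element -/
theorem card_sat : (univ.filter (fun v : Fin (5 * k + 1) =>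
    (v : ℕ) % 5 = 4 ∧ φ v = 2)).card ≤ 1 := by
  rw [Finset.card_le_one]
  intro u hu v hv
  simp only [mem_filter, mem_univ, true_and] at hu hv
  by_contra hne
  have hne' : (u : ℕ) ≠ v := fun h => hne (Fin.ext h)
  have key : ∀ a b : Fin (5 * k + 1), (a : ℕ) % 5 = 4 → φ a = 2 → (b : ℕ) % 5 = 4 → φ b = 2 →
      (a : ℕ) < b → False := by
    intro a b ha ha2 hb hb2 hab
    have hb' := b.2
    have h1 : a = ⟨5 * ((a : ℕ) / 5) + 4, by omega⟩ := by ext; simp only; omega
    have h2 : b = ⟨5 * ((b : ℕ) / 5) + 4, by omega⟩ := by ext; simp only; omega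
    rw [h1] at ha2
    rw [h2] at hb2
    exact at_most_one φ hL hφ ((a : ℕ) / 5) ((b : ℕ) / 5) (by omega) (by omega) ha2 hb2
  rcases lt_or_gt_of_ne hne' with h | h
  · exact key u v hu.1 hu.2 hv.1 hv.2 h
  · exact key v u hv.1 hv.2 hu.1 hu.2 h

end colouring

/-- the domain of the request -/
def dom (k : ℕ) : Finset (Fin (5 * k + 1)) := univ.filter (fun v => (v : ℕ) % 5 = 4)

theorem card_dom (k : ℕ) : (dom k).card = k := by
  have : dom k = univ.image (fun j : Fin k => (⟨5 * (j : ℕ) + 4, by omega⟩ : Fin (5 * k + 1))) := by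
    ext v
    simp only [dom, mem_filter, mem_univ, true_and, mem_image]
    constructor
    · intro h
      have hv := v.2
      exact ⟨⟨(v : ℕ) / 5, by omega⟩, by ext; simp only; omega⟩
    · rintro ⟨j, rfl⟩
      simp only
      omega
  rw [this, Finset.card_image_of_injective, Finset.card_univ, Fintype.card_fin]
  intro a b hab
  ext
  have := congrArg Fin.val hab
  simp only at this
  omega

end Pool.Agent.H778R3.Flex
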